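import Pool.Agent.H37.CNW.Stmts

/-!
# Row XCC of the board `cnw` (helper48): the conductor of the covers with group `C_p ≀_Ω H`
-/

set_option autoImplicit false

namespace Pool.CND

open Finset

section general

variable {k L : Type} [Field k] [Field L] [Algebra k L] {P : Place k L}

theorem xcc_ge_move {g : L ≃ₐ[k] L} (hf : Fixes P g) {u : L} (hu1 : P.ord u = 1) :
    P.Ge (g u - u) 1 := by
  have h1 := P.ge_sub (hf.ge (P.ge_ord u)) (P.ge_ord u)
  rwa [hu1] at h1

theorem xcc_ram0 {G : Type} [Group G] {ρ : G →* (L ≃ₐ[k] L)} {g : G} :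
    g ∈ ram P ρ 0 ↔ Fixes P (ρ g) := by
  constructor
  · intro h
    exact h.1
  · intro h
    refine ⟨h, fun u hu hu1 => ?_⟩
    rcases xcc_ge_move h hu1 with h2 | h2
    · exact Or.inl (sub_eq_zero.1 h2)
    · right
      simpa using h2

theorem xcc_eq_one (hLON : S_LON) {g : L ≃ₐ[k] L} (hf : Fixes P g) {u : L} (hu : u ≠ 0)
    (hu1 : P.ord u = 1) (hgu : g u = u) : g = 1 := by
  ext x
  show g x = x
  by_contra hx
  have hx' : g x - x ≠ 0 := sub_ne_zero.2 hx
  have hx0 : x ≠ 0 := by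
    rintro rfl
    exact hx (map_zero g)
  have h0 : P.Ge (g u - u) (max 0 (P.ord (g x - x) - P.ord x + 1) + 1) :=
    Or.inl (by rw [hgu, sub_self])
  rcases hLON k L P g u (max 0 (P.ord (g x - x) - P.ord x + 1)) hf hu hu1 (le_max_left _ _) h0 x
    with h | h
  · have h2 := h.resolve_left hx'
    have h3 := le_max_right 0 (P.ord (g x - x) - P.ord x + 1)
    omega
  · exact hx0 h

theorem xcc_b_nonneg (hLON : S_LON) {g : L ≃ₐ[k] L} (hf : Fixes P g) (hg : g ≠ 1) :
    0 ≤ P.b g := by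
  have h1 : g P.pi ≠ P.pi := fun h => hg (xcc_eq_one hLON hf P.pi_ne P.ord_pi h)
  have h2 := (xcc_ge_move hf P.ord_pi).resolve_left (sub_ne_zero.2 h1)
  unfold Place.b
  omega

theorem xcc_lon (hLON : S_LON) {g : L ≃ₐ[k] L} (hf : Fixes P g) {l : ℤ} (hl0 : 0 ≤ l)
    (hl : l ≤ P.b g) {x : L} (hx : x ≠ 0) : P.Ge (g x - x) (P.ord x + l) := by
  have h0 : P.Ge (g P.pi - P.pi) (l + 1) := Or.inr (by unfold Place.b at hl; omega)
  exact (hLON k L P g P.pi l hf P.pi_ne P.ord_pi hl0 h0 x).resolve_right hx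

theorem xcc_conj (hLON : S_LON) {z g : L ≃ₐ[k] L} (hz : Fixes P z) (hg : Fixes P g) (hz1 : z ≠ 1)
    {l : ℤ} (hl0 : 0 ≤ l) (hl : l ≤ P.b z) : l ≤ P.b (g⁻¹ * z * g) := by
  have hne : g⁻¹ * z * g ≠ 1 := by
    intro h
    apply hz1
    have : z = g * (g⁻¹ * z * g) * g⁻¹ := by group
    rw [this, h]
    group
  have hfix : Fixes P (g⁻¹ * z * g) := (hg.inv.mul hz).mul hg
  have h1 : (g⁻¹ * z * g) P.pi ≠ P.pi := fun h => hne (xcc_eq_one hLON hfix P.pi_ne P.ord_pi h)
  have hgpi : g P.pi ≠ 0 := by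
    rw [Ne, map_eq_zero_iff g g.injective]
    exact P.pi_ne
  have h2 := xcc_lon hLON hz hl0 hl hgpi
  rw [hg P.pi P.pi_ne, P.ord_pi] at h2
  have h3 : (g⁻¹ * z * g) P.pi - P.pi = g⁻¹ (z (g P.pi) - g P.pi) := by
    rw [map_sub, AlgEquiv.mul_apply, AlgEquiv.mul_apply]
    congr 1
    rw [← AlgEquiv.mul_apply, inv_mul_cancel, AlgEquiv.one_apply]
  have h4 := hg.inv.ge h2
  rw [← h3] at h4
  have h5 := h4.resolve_left (sub_ne_zero.2 h1)
  unfold Place.b
  omega

theorem xcc_ram1 (hLON : S_LON) {G : Type} [Group G] {ρ : G →* (L ≃ₐ[k] L)} {g : G}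
    (hf : Fixes P (ρ g)) (hb : 1 ≤ P.b (ρ g)) : g ∈ ram P ρ 1 := by
  refine ⟨hf, fun u hu hu1 => ?_⟩
  rcases xcc_lon hLON hf (by norm_num) hb hu with h | h
  · exact Or.inl (sub_eq_zero.1 h)
  · right
    rw [hu1] at h
    simpa using h

theorem xcc_as {p : ℕ} (hp : 2 ≤ p) {y z : L} (h : y ^ p - y = z) (hz : z ≠ 0) :
    y ≠ 0 ∧ (P.ord z < 0 → (p : ℤ) * P.ord y = P.ord z) ∧
      ∀ C : ℤ, 0 ≤ C → -C ≤ P.ord z → -C ≤ P.ord y := by
  have hy : y ≠ 0 := by
    rintro rfl
    apply hz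
    rw [← h, zero_pow (by omega), sub_zero]
  have hpZ : (2 : ℤ) ≤ p := by exact_mod_cast hp
  have hneg : P.ord y < 0 → P.ord z = (p : ℤ) * P.ord y := by
    intro hlt
    have h1 : P.Ge (-y) (P.ord (y ^ p) + 1) := by
      right
      rw [P.ord_neg, P.ord_pow hy]
      nlinarith
    have h2 := (P.ord_add_of_lt (pow_ne_zero p hy) h1).2
    rw [← sub_eq_add_neg, h, P.ord_pow hy] at h2
    exact h2
  refine ⟨hy, fun hzn => ?_, fun C hC hzC => ?_⟩
  · rcases lt_or_ge (P.ord y) 0 with hlt | hge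
    · exact (hneg hlt).symm
    · exfalso
      have h1 : P.Ge (y ^ p - y) 0 := P.ge_sub (Or.inr (by rw [P.ord_pow hy]; positivity))
        (Or.inr hge)
      rw [h] at h1
      have := h1.resolve_left hz
      omega
  · rcases lt_or_ge (P.ord y) 0 with hlt | hge
    · have h1 := hneg hlt
      nlinarith
    · omega

end general

theorem xcc_sm {G : Type} [Fintype G] (b : G → ℤ) (Q : G → Prop) [DecidablePred Q] :
    sm b {g | Q g} = ∑ g ∈ univ.filter Q, b g := by
  unfold sm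
  apply sum_congr _ (fun _ _ => rfl)
  ext
  simp

/-- `ram 1` is a subgroup -/
theorem xcc_W {k L G : Type} [Field k] [Field L] [Algebra k L] [Group G] (P : Place k L)
    (ρ : G →* (L ≃ₐ[k] L)) : ∃ W : Subgroup G, (W : Set G) = ram P ρ 1 := by
  have key : ∀ {g : G}, g ∈ ram P ρ 1 ↔ Fixes P (ρ g) ∧ ∀ u : L, u ≠ 0 → P.ord u = 1 →
      P.Ge (ρ g u - u) 2 := by
    intro g
    constructor
    · intro h
      refine ⟨h.1, fun u hu hu1 => ?_⟩
      rcases h.2 u hu hu1 with h2 | h2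
      · exact Or.inl (sub_eq_zero.2 h2)
      · right
        simpa using h2
    · intro h
      refine ⟨h.1, fun u hu hu1 => ?_⟩
      rcases h.2 u hu hu1 with h2 | h2
      · exact Or.inl (sub_eq_zero.1 h2)
      · right
        simpa using h2
  refine ⟨{ carrier := ram P ρ 1, mul_mem' := ?_, one_mem' := ?_, inv_mem' := ?_ }, rfl⟩
  · intro a b ha hb
    rw [key] at ha hb ⊢
    refine ⟨by rw [map_mul]; exact ha.1.mul hb.1, fun u hu hu1 => ?_⟩
    have e : ρ (a * b) u - u = ρ a (ρ b u - u) + (ρ a u - u) := by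
      rw [map_mul, AlgEquiv.mul_apply, map_sub]
      ring
    rw [e]
    exact P.ge_add (ha.1.ge (hb.2 u hu hu1)) (ha.2 u hu hu1)
  · rw [key]
    refine ⟨by rw [map_one]; exact Fixes.one, fun u _ _ => Or.inl ?_⟩
    rw [map_one, AlgEquiv.one_apply, sub_self]
  · intro a ha
    rw [key] at ha ⊢
    refine ⟨by rw [map_inv]; exact ha.1.inv, fun u hu hu1 => ?_⟩
    have hv0 : ρ a⁻¹ u ≠ 0 := by
      rw [Ne, map_eq_zero_iff _ (ρ a⁻¹).injective]
      exact hu
    have hv1 : P.ord (ρ a⁻¹ u) = 1 := by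
      rw [map_inv, ha.1.inv u hu, hu1]
    have h1 := ha.2 _ hv0 hv1
    have h2 : ρ a (ρ a⁻¹ u) = u := by
      rw [← AlgEquiv.mul_apply, ← map_mul, mul_inv_cancel, map_one, AlgEquiv.one_apply]
    rw [h2] at h1
    have h3 := P.ge_neg h1
    rwa [neg_sub] at h3

theorem xcc_coset_card {G : Type} [Group G] [Fintype G] (N : Subgroup G) (g : G)
    [DecidablePred (fun x : G => g⁻¹ * x ∈ N)] :
    (univ.filter (fun x : G => g⁻¹ * x ∈ N)).card = Nat.card N := by
  classical
  rw [Nat.card_eq_fintype_card, Fintype.card_of_subtype (univ.filter (fun x : G => x ∈ N))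
    (by intro x; simp)]
  refine Finset.card_bij' (fun x _ => g⁻¹ * x) (fun a _ => g * a) ?_ ?_ ?_ ?_
  · intro x hx
    simpa using hx
  · intro a ha
    simpa using ha
  · intro x _
    simp
  · intro a _
    simp

theorem xcc_thm (hWP1 : S_WP1) (hWP2 : S_WP2) (hWP3 : S_WP3) (hXD1 : S_XD1) (hXD2 : S_XD2)
    (hTOT : S_TOT) (hLON : S_LON) (hCNV : S_CNV) : S_XCC := by
  classical
  intro p k L L' H Ω _ _ _ _ _ _ _ _ _ _ _ ρ r j y ρ' P P' e' n C M ω₀ I J hp hch hwx hy hact hr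
    hr0 hI hJ hord hC hpn hM hbig
  have : Fact p.Prime := ⟨hp⟩
  have := hch
  have hp2 : 2 ≤ p := hp.two_le
  have hn1 : 1 ≤ n := by
    rcases Nat.eq_zero_or_pos n with h | h
    · exact absurd (h ▸ dvd_zero p) hpn
    · exact h
  -- constants
  have hcst : ∀ a : Multiplicative (ZMod p), a ≠ 1 →
      (((Multiplicative.toAdd a).val : ℕ) : k) ≠ 0 := by
    intro a ha h
    rw [CharP.cast_eq_zero_iff k p] at h
    have h1 := Nat.eq_zero_of_dvd_of_lt h (ZMod.val_lt _)
    apply ha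
    rw [ZMod.val_eq_zero] at h1
    exact h1
  have hleft : ∀ (g g' : PW p H Ω) (ω : Ω), g.right • ω = ω →
      (g * g').left ω = g.left ω * g'.left ω := by
    intro g g' ω hω
    rw [SemidirectProduct.mul_left, Pi.mul_apply]
    congr 1
    show g'.left (g.right⁻¹ • ω) = g'.left ω
    rw [inv_smul_eq_iff.2 hω.symm]
  -- the subgroups
  let A : Subgroup (PW p H Ω) :=
    { carrier := {g | g.right = 1 ∧ Fixes P' (ρ' g)}
      mul_mem' := by
        intro a b ha hb
        refine ⟨?_, ?_⟩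
        · rw [SemidirectProduct.mul_right, ha.1, hb.1, one_mul]
        · rw [map_mul]; exact ha.2.mul hb.2
      one_mem' := ⟨rfl, by rw [map_one]; exact Fixes.one⟩
      inv_mem' := by
        intro a ha
        refine ⟨?_, ?_⟩
        · rw [SemidirectProduct.inv_right, ha.1, inv_one]
        · rw [map_inv]; exact ha.2.inv }
  let I' : Subgroup (PW p H Ω) :=
    { carrier := {g | Fixes P' (ρ' g)}
      mul_mem' := by
        intro a b ha hb
        show Fixes P' (ρ' (a * b))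
        rw [map_mul]; exact Fixes.mul ha hb
      one_mem' := by
        show Fixes P' (ρ' 1)
        rw [map_one]; exact Fixes.one
      inv_mem' := by
        intro a ha
        show Fixes P' (ρ' a⁻¹)
        rw [map_inv]; exact Fixes.inv ha }
  let B : Subgroup (PW p H Ω) :=
    { carrier := {g | Fixes P' (ρ' g) ∧ g.right • ω₀ = ω₀}
      mul_mem' := by
        intro a b ha hb
        refine ⟨?_, ?_⟩
        · rw [map_mul]; exact ha.1.mul hb.1
        · rw [SemidirectProduct.mul_right, mul_smul, hb.2, ha.2]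
      one_mem' := ⟨by rw [map_one]; exact Fixes.one, by
        rw [SemidirectProduct.one_right, one_smul]⟩
      inv_mem' := by
        intro a ha
        refine ⟨?_, ?_⟩
        · rw [map_inv]; exact ha.1.inv
        · rw [SemidirectProduct.inv_right, inv_smul_eq_iff]
          exact ha.2.symm }
  let lam : B →* Multiplicative (ZMod p) :=
    { toFun := fun g => g.1.left ω₀
      map_one' := rfl
      map_mul' := fun a b => hleft a.1 b.1 ω₀ a.2.2 }
  let N : Subgroup (PW p H Ω) := lam.ker.map B.subtype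
  have hA : ∀ g : PW p H Ω, g ∈ A ↔ SemidirectProduct.rightHom g = 1 ∧ Fixes P' (ρ' g) :=
    fun g => Iff.rfl
  have hI'mem : ∀ g : PW p H Ω, g ∈ I' ↔ Fixes P' (ρ' g) := fun g => Iff.rfl
  have hBmem : ∀ g : PW p H Ω, g ∈ B ↔ Fixes P' (ρ' g) ∧ g.right • ω₀ = ω₀ := fun g => Iff.rfl
  have hNmem : ∀ g : PW p H Ω, g ∈ N ↔ g ∈ B ∧ g.left ω₀ = 1 := by
    intro g
    constructor
    · rintro ⟨x, hx, rfl⟩
      exact ⟨x.2, hx⟩
    · rintro ⟨hg, h1⟩
      exact ⟨⟨g, hg⟩, h1, rfl⟩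
  have hNB : N ≤ B := fun g hg => ((hNmem g).1 hg).1
  have hAB : A ≤ B := by
    intro g hg
    refine ⟨hg.2, ?_⟩
    rw [hg.1, one_smul]
  have hBI : B ≤ I' := fun g hg => hg.1
  have hI'set : (I' : Set (PW p H Ω)) = ram P' ρ' 0 := by
    ext g
    exact xcc_ram0.symm
  have hBfix : ∀ g ∈ B, Fixes P' (ρ' g) := fun g hg => hg.1
  have hnorm : ∀ g ∈ B, ∀ x ∈ N, g * x * g⁻¹ ∈ N := by
    intro g hg x hx
    obtain ⟨hxB, hx1⟩ := (hNmem x).1 hx
    refine (hNmem _).2 ⟨mul_mem (mul_mem hg hxB) (inv_mem hg), ?_⟩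
    have h1 : lam (⟨g, hg⟩ * ⟨x, hxB⟩ * ⟨g, hg⟩⁻¹) = 1 := by
      rw [map_mul, map_mul, map_inv]
      have h2 : lam ⟨x, hxB⟩ = 1 := hx1
      rw [h2, mul_one, mul_inv_cancel]
    exact h1
  -- cards
  have hApos : (0 : ℤ) < Nat.card A := by exact_mod_cast Nat.card_pos
  have hJpos : (0 : ℤ) < Nat.card J := by exact_mod_cast Nat.card_pos
  have hAcard : Nat.card A ≤ p ^ Nat.card Ω := by
    have h1 : Nat.card (Ω → Multiplicative (ZMod p)) = p ^ Nat.card Ω := by
      rw [Nat.card_fun]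
      congr 1
      exact (Nat.card_congr Multiplicative.toAdd).trans (Nat.card_zmod p)
    rw [← h1]
    have : Finite (Multiplicative (ZMod p)) := Finite.of_equiv (ZMod p) Multiplicative.ofAdd
    apply Nat.card_le_card_of_injective (fun a : A => a.1.left)
    intro a b hab
    apply Subtype.ext
    apply SemidirectProduct.ext
    · exact hab
    · exact a.2.1.trans b.2.1.symm
  have hbigA : (Nat.card A : ℤ) * (M + C) < n := by
    have h1 : Nat.card A * (M + C) ≤ p ^ Nat.card Ω * (M + C) := Nat.mul_le_mul_right _ hAcard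
    exact_mod_cast lt_of_le_of_lt h1 hbig
  have hAM : (Nat.card A : ℤ) * M < n := by
    have : (0 : ℤ) ≤ Nat.card A * C := by positivity
    linarith [hbigA, mul_add (Nat.card A : ℤ) M C]
  have hAC : (Nat.card A : ℤ) * C < n := by
    have : (0 : ℤ) ≤ Nat.card A * M := by positivity
    linarith [hbigA, mul_add (Nat.card A : ℤ) M C]
  obtain ⟨hr0', hr1', hcI⟩ := hWP3 p k L L' (PW p H Ω) H ρ ρ' j SemidirectProduct.rightHom P P' e'
    A I' I hp hch hwx hA hI'set hI
  have he' : e' = Nat.card A := hWP1 k L L' (PW p H Ω) H ρ ρ' j SemidirectProduct.rightHom P P' e'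
    A hwx hA
  have hordj : ∀ x : L, x ≠ 0 → (Nat.card A : ℤ) * P.ord x = P'.ord (j x) := by
    intro x hx
    rw [← he']
    exact hwx.ord x hx
  have hjr : ∀ ω, j (r ω) ≠ 0 := by
    intro ω
    rw [Ne, map_eq_zero_iff j j.injective]
    exact hr0 ω
  have hcB : Nat.card B = Nat.card A * Nat.card J := by
    have hf : ∀ g : B, SemidirectProduct.rightHom.comp B.subtype g ∈ J := by
      intro g
      rw [hJ]
      refine ⟨?_, g.2.2⟩
      rw [hr0']
      exact ⟨g.1, xcc_ram0.2 g.2.1, rfl⟩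
    let f : B →* J := (SemidirectProduct.rightHom.comp B.subtype).codRestrict J hf
    have h1 := f.ker.card_mul_index
    rw [Subgroup.index_ker] at h1
    have h2 : f.ker = A.subgroupOf B := by
      ext g
      rw [MonoidHom.mem_ker, Subgroup.mem_subgroupOf]
      constructor
      · intro h
        have h3 : (f g : H) = 1 := by rw [h]; rfl
        exact ⟨h3, g.2.1⟩
      · intro h
        apply Subtype.ext
        exact h.1
    have h3 : Nat.card f.range = Nat.card J := by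
      have h4 : f.range = ⊤ := by
        rw [MonoidHom.range_eq_top]
        intro h
        have h5 := (hJ h.1).1 h.2
        obtain ⟨g, hg, hgh⟩ := (hr0' h.1).1 h5.1
        have hgB : g ∈ B := by
          refine ⟨xcc_ram0.1 hg, ?_⟩
          have h6 : g.right = h.1 := hgh
          rw [h6]
          exact h5.2
        refine ⟨⟨g, hgB⟩, ?_⟩
        apply Subtype.ext
        exact hgh
      rw [h4]
      exact Nat.card_congr Subgroup.topEquiv.toEquiv
    rw [h2, h3, Nat.card_congr (Subgroup.subgroupOfEquivOfLe hAB).toEquiv] at h1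
    exact h1.symm
  -- `y ω₀`
  obtain ⟨hy0, hyord, -⟩ := xcc_as (P := P') hp2 (hy ω₀) (hjr ω₀)
  have hjord : P'.ord (j (r ω₀)) = -((Nat.card A : ℤ) * (n * Nat.card J)) := by
    rw [← hordj _ (hr0 ω₀), hord]
    push_cast
    ring
  have hnJ : (0 : ℤ) < n * Nat.card J := by
    have : (0 : ℤ) < n := by exact_mod_cast hn1
    positivity
  have hyord' : (p : ℤ) * P'.ord (y ω₀) = -((Nat.card A : ℤ) * (n * Nat.card J)) := by
    rw [← hjord]
    apply hyord
    rw [hjord]
    have := mul_pos hApos hnJ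
    omega
  have hactB : ∀ g ∈ B, ρ' g (y ω₀) =
      y ω₀ + algebraMap k L' (((Multiplicative.toAdd (g.left ω₀)).val : ℕ) : k) := by
    intro g hg
    rw [hact, hg.2, map_natCast]
  have hNfix : ∀ g ∈ N, ρ' g (y ω₀) = y ω₀ := by
    intro g hg
    obtain ⟨hgB, hg1⟩ := (hNmem g).1 hg
    rw [hactB g hgB, hg1, toAdd_one, ZMod.val_zero, Nat.cast_zero, map_zero, add_zero]
  obtain ⟨g₀, hg₀B, hg₀1⟩ : ∃ g ∈ B, g.left ω₀ ≠ 1 := by
    by_contra hcon
    push Not at hcon
    have hfixB : ∀ g ∈ B, ρ' g (y ω₀) = y ω₀ := fun g hg => hNfix g ((hNmem g).2 ⟨hg, hcon g hg⟩)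
    obtain ⟨t, ht⟩ := hTOT k L' (PW p H Ω) P' ρ' B hwx.inj' hBfix (y ω₀) hy0 hfixB
    rw [ht, hcB] at hyord'
    push_cast at hyord'
    have h1 : (Nat.card A * Nat.card J : ℤ) * (p * t + n) = 0 := by linear_combination hyord'
    have h2 : (p : ℤ) * t + n = 0 := by
      rcases mul_eq_zero.1 h1 with h | h
      · have := mul_pos hApos hJpos
        omega
      · exact h
    apply hpn
    have h3 : (p : ℤ) ∣ (n : ℤ) := ⟨-t, by linear_combination h2⟩
    exact_mod_cast h3
  have hg₀N : g₀ ∉ N := fun h => hg₀1 ((hNmem g₀).1 h).2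
  have hcN : Nat.card B = p * Nat.card N := by
    have h1 := lam.ker.card_mul_index
    rw [Subgroup.index_ker] at h1
    have h2 : Nat.card lam.ker = Nat.card N :=
      (Nat.card_congr (lam.ker.equivMapOfInjective B.subtype B.subtype_injective).toEquiv)
    have h3 : Nat.card lam.range = p := by
      have h4 : Nat.card (Multiplicative (ZMod p)) = p :=
        (Nat.card_congr Multiplicative.toAdd).trans (Nat.card_zmod p)
      have h5 : Nat.card lam.range ∣ p := by
        have := lam.range.card_subgroup_dvd_card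
        rwa [h4] at this
      rcases (Nat.dvd_prime hp).1 h5 with h6 | h6
      · exfalso
        have h7 : lam.range = ⊥ := by
          have : Finite (Multiplicative (ZMod p)) := Finite.of_equiv (ZMod p) Multiplicative.ofAdd
          exact Subgroup.eq_bot_of_card_eq _ h6
        have h8 : lam ⟨g₀, hg₀B⟩ ∈ lam.range := ⟨_, rfl⟩
        rw [h7, Subgroup.mem_bot] at h8
        exact hg₀1 h8
      · exact h6
    rw [h2, h3] at h1
    rw [← h1, mul_comm]
  set b' : PW p H Ω → ℤ := fun g => P'.b (ρ' g) with hb'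
  obtain ⟨β, hβ1, hpβ, hcos, hlast⟩ := hXD1 p k L' (PW p H Ω) P' ρ' B N hp hch hwx.inj' hNB hBfix
    hnorm hcN
  have hβ : β = n := by
    apply hlast (y ω₀) _ g₀ n hg₀B hNfix (hcst _ hg₀1) hy0 (hactB g₀ hg₀B) _ hpn
    have h1 : (p : ℤ) * P'.ord (y ω₀) = (p : ℤ) * (-((n * Nat.card N : ℕ) : ℤ)) := by
      have h2 : (Nat.card A : ℤ) * Nat.card J = p * Nat.card N := by
        have h3 : Nat.card A * Nat.card J = p * Nat.card N := hcB.symm.trans hcN
        exact_mod_cast h3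
      rw [hyord']
      push_cast
      linear_combination (-(n : ℤ)) * h2
    have hp0 : (p : ℤ) ≠ 0 := by exact_mod_cast hp.ne_zero
    exact mul_left_cancel₀ hp0 h1
  rw [hβ] at hcos
  have hne1 : ∀ g : PW p H Ω, g ≠ 1 → ρ' g ≠ 1 := by
    intro g hg h
    apply hg
    apply hwx.inj'
    rw [h, map_one]
  have hbnn : ∀ g ∈ I', g ≠ 1 → 0 ≤ b' g := fun g hg hg1 => xcc_b_nonneg hLON hg (hne1 g hg1)
  obtain ⟨x₀, hx₀B, hx₀N, hx₀⟩ : ∃ x ∈ B, x ∉ N ∧ (n : ℤ) ≤ b' x := by
    by_contra hcon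
    push Not at hcon
    have h1 := hcos g₀ hg₀B hg₀N
    have h2 : sm b' {x | g₀⁻¹ * x ∈ N} ≤ Nat.card N * ((n : ℤ) - 1) := by
      rw [xcc_sm b' (fun x => g₀⁻¹ * x ∈ N)]
      calc ∑ x ∈ univ.filter (fun x => g₀⁻¹ * x ∈ N), b' x
          ≤ ∑ x ∈ univ.filter (fun x => g₀⁻¹ * x ∈ N), ((n : ℤ) - 1) := by
            apply sum_le_sum
            intro x hx
            rw [mem_filter] at hx
            have hxB : x ∈ B := by
              have := mul_mem hg₀B (hNB hx.2)
              rwa [mul_inv_cancel_left] at this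
            have hxN : x ∉ N := by
              intro hxN
              apply hg₀N
              have := mul_mem hxN (inv_mem hx.2)
              rwa [mul_inv_rev, inv_inv, mul_inv_cancel_left] at this
            have := hcon x hxB hxN
            omega
        _ = Nat.card N * ((n : ℤ) - 1) := by
            rw [sum_const, nsmul_eq_mul, xcc_coset_card]
    have hNpos : (0 : ℤ) < Nat.card N := by exact_mod_cast Nat.card_pos
    have h3 : sm b' {x | g₀⁻¹ * x ∈ N} = Nat.card N * (n : ℤ) := h1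
    nlinarith
  have hx₀1 : x₀ ≠ 1 := by
    rintro rfl
    exact hx₀N (one_mem N)
  obtain ⟨z, hz, hmax⟩ := Finset.exists_max_image
    (univ.filter (fun g : PW p H Ω => g ∈ I' ∧ g ≠ 1)) b'
    ⟨x₀, by simp only [mem_filter, mem_univ, true_and]; exact ⟨hBI hx₀B, hx₀1⟩⟩
  rw [mem_filter] at hz
  obtain ⟨-, hzI, hz1⟩ := hz
  have hmax' : ∀ g ∈ I', g ≠ 1 → b' g ≤ b' z := by
    intro g hg hg1
    apply hmax
    simp only [mem_filter, mem_univ, true_and]
    exact ⟨hg, hg1⟩
  have hnl : (n : ℤ) ≤ b' z := hx₀.trans (hmax' x₀ (hBI hx₀B) hx₀1)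
  have hl0 : 0 ≤ b' z := by omega
  -- (i), (iii)
  have hzA : z ∈ A := by
    by_contra hzA
    have hπz : SemidirectProduct.rightHom z ≠ 1 := fun h => hzA ⟨h, hzI⟩
    obtain ⟨hfz, hsz⟩ := hWP2 k L L' (PW p H Ω) H ρ ρ' j SemidirectProduct.rightHom P P' e' A z hwx
      hA hzI hπz
    have h1 : b' z ≤ sm b' {x | z⁻¹ * x ∈ A} := by
      rw [xcc_sm b' (fun x => z⁻¹ * x ∈ A)]
      apply single_le_sum (f := b')
      · intro x hx
        rw [mem_filter] at hx
        have hxI : x ∈ I' := by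
          have := mul_mem hzI (hBI (hAB hx.2))
          rwa [mul_inv_cancel_left] at this
        apply hbnn x hxI
        rintro rfl
        apply hzA
        have := inv_mem hx.2
        rwa [mul_one, inv_inv] at this
      · rw [mem_filter]
        refine ⟨mem_univ _, ?_⟩
        rw [inv_mul_cancel]
        exact one_mem A
    have h2 : P.b (ρ (SemidirectProduct.rightHom z)) ≤ M := by
      apply hM
      show _ ∈ (I : Set H)
      rw [hI]
      exact xcc_ram0.2 hfz
    have h3 : sm b' {x | z⁻¹ * x ∈ A} = Nat.card A * P.b (ρ (SemidirectProduct.rightHom z)) := hsz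
    rw [h3] at h1
    have h4 := mul_le_mul_of_nonneg_left h2 hApos.le
    omega
  have hzr : z.right = 1 := hzA.1
  obtain ⟨ω, hω⟩ : ∃ ω, z.left ω ≠ 1 := by
    by_contra hcon
    push Not at hcon
    apply hz1
    apply SemidirectProduct.ext
    · funext ω
      exact hcon ω
    · exact hzr
  have hzy : ρ' z (y ω) =
      y ω + algebraMap k L' (((Multiplicative.toAdd (z.left ω)).val : ℕ) : k) := by
    rw [hact, hzr, one_smul, map_natCast]
  have hzact : ∀ m : ℕ, ∀ g : PW p H Ω, ρ' g (m : L') = m := fun m g => map_natCast _ m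
  have hin : ∃ h ∈ ram P ρ 0, ω = h • ω₀ := by
    by_contra hcon
    have h1 := hC ω hcon
    have h2 : -((Nat.card A : ℤ) * C) ≤ P'.ord (j (r ω)) := by
      rw [← hordj _ (hr0 ω)]
      nlinarith
    obtain ⟨hyω, -, h3⟩ := xcc_as (P := P') hp2 (hy ω) (hjr ω)
    have h4 := h3 _ (by positivity) h2
    have h5 := xcc_lon hLON hzI hl0 le_rfl hyω
    rw [hzy, add_sub_cancel_left] at h5
    have hc : algebraMap k L' (((Multiplicative.toAdd (z.left ω)).val : ℕ) : k) ≠ 0 := by
      rw [Ne, map_eq_zero]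
      exact hcst _ hω
    have h6 := h5.resolve_left hc
    rw [P'.ord_const _ (hcst _ hω)] at h6
    have h7 : P'.b (ρ' z) = b' z := rfl
    omega
  obtain ⟨h, hh, hωh⟩ := hin
  obtain ⟨g, hg, hgh⟩ := (hr0' h).1 hh
  have hgI : g ∈ I' := xcc_ram0.1 hg
  have hgr : g.right = h := hgh
  have hz'I : g⁻¹ * z * g ∈ I' := mul_mem (mul_mem (inv_mem hgI) hzI) hgI
  have hz'r : (g⁻¹ * z * g).right = 1 := by
    rw [SemidirectProduct.mul_right, SemidirectProduct.mul_right, hzr, mul_one,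
      SemidirectProduct.inv_right, inv_mul_cancel]
  have hz'B : g⁻¹ * z * g ∈ B := ⟨hz'I, by rw [hz'r, one_smul]⟩
  have hz'1 : g⁻¹ * z * g ≠ 1 := by
    intro h1
    apply hz1
    have : z = g * (g⁻¹ * z * g) * g⁻¹ := by group
    rw [this, h1]
    group
  have hz'N : g⁻¹ * z * g ∉ N := by
    intro hN
    have h1 := hNfix _ hN
    have h2 : ρ' z (ρ' g (y ω₀)) = ρ' g (y ω₀) +
        algebraMap k L' (((Multiplicative.toAdd (z.left ω)).val : ℕ) : k) := by
      rw [hact g ω₀, hgr, ← hωh, map_add, hzy, hzact]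
      ring
    have h3 : ρ' (g⁻¹ * z * g) (y ω₀) = y ω₀ +
        algebraMap k L' (((Multiplicative.toAdd (z.left ω)).val : ℕ) : k) := by
      rw [map_mul, map_mul, AlgEquiv.mul_apply, AlgEquiv.mul_apply, h2, map_add, AlgEquiv.commutes,
        ← AlgEquiv.mul_apply, ← map_mul, inv_mul_cancel, map_one, AlgEquiv.one_apply]
    rw [h3] at h1
    have h4 : algebraMap k L' (((Multiplicative.toAdd (z.left ω)).val : ℕ) : k) = 0 := by
      linear_combination h1
    rw [map_eq_zero] at h4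
    exact hcst _ hω h4
  have hz'b : b' (g⁻¹ * z * g) = b' z := by
    apply le_antisymm (hmax' _ hz'I hz'1)
    have h1 := xcc_conj hLON hzI hgI (hne1 z hz1) hl0 le_rfl
    show P'.b (ρ' z) ≤ P'.b (ρ' (g⁻¹ * z * g))
    rw [map_mul, map_mul, map_inv]
    exact h1
  -- (iv)
  have hX2 := hXD2 p k L' (PW p H Ω) P' ρ' B N (g⁻¹ * z * g) (b' z) n hp hch hwx.inj' hNB hBfix hnorm
    hcN hcos hz'B hz'N hz'b (fun g hg hg1 => hmax' g (hBI hg) hg1)
  obtain ⟨W', hW'⟩ := xcc_W P' ρ'
  have hW'mem : ∀ g, g ∈ W' ↔ g ∈ ram P' ρ' 1 := by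
    intro g
    rw [← hW']
    exact Iff.rfl
  have hW'I : W' ≤ I' := fun g hg => ((hW'mem g).1 hg).1
  have hlst : IsLst b' W' (b' z) := by
    refine ⟨⟨z, (hW'mem z).2 (xcc_ram1 hLON hzI ?_), hz1, rfl⟩, fun g hg hg1 => hmax' g (hW'I hg) hg1⟩
    have h1 : (1 : ℤ) ≤ n := by exact_mod_cast hn1
    exact h1.trans hnl
  have hcon := hCNV k L' (PW p H Ω) P' ρ' W' I' (b' z) hwx.inj' hW' hI'set hlst
  refine ⟨_, hcon, ?_⟩
  -- sums
  have e2 : sm b' {g | g ∈ W' ∧ g ≠ 1} = sm b' {g | g ∈ I' ∧ g ≠ 1} := by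
    rw [xcc_sm b' (fun g => g ∈ W' ∧ g ≠ 1), xcc_sm b' (fun g => g ∈ I' ∧ g ≠ 1)]
    apply sum_subset
    · intro g hg
      rw [mem_filter] at hg ⊢
      exact ⟨mem_univ _, hW'I hg.2.1, hg.2.2⟩
    · intro g hg hg'
      rw [mem_filter] at hg hg'
      have hgW : g ∉ W' := fun h1 => hg' ⟨mem_univ _, h1, hg.2.2⟩
      have h1 := hbnn g hg.2.1 hg.2.2
      by_contra h0
      apply hgW
      rw [hW'mem]
      apply xcc_ram1 hLON hg.2.1
      show 1 ≤ b' g
      omega
  have e3 : sm b' {g | g ∈ I' ∧ g ≠ 1} = sm b' {g | g ∈ B ∧ g ≠ 1} + sm b' {g | g ∈ I' ∧ g ∉ B} := by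
    rw [xcc_sm b' (fun g => g ∈ I' ∧ g ≠ 1), xcc_sm b' (fun g => g ∈ B ∧ g ≠ 1),
      xcc_sm b' (fun g => g ∈ I' ∧ g ∉ B), ← sum_union]
    · apply sum_congr _ (fun _ _ => rfl)
      ext x
      simp only [mem_filter, mem_univ, true_and, mem_union]
      constructor
      · rintro ⟨h1, h2⟩
        by_cases h3 : x ∈ B
        · exact Or.inl ⟨h3, h2⟩
        · exact Or.inr ⟨h1, h3⟩
      · rintro (⟨h1, h2⟩ | ⟨h1, h2⟩)
        · exact ⟨hBI h1, h2⟩
        · refine ⟨h1, ?_⟩
          rintro rfl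
          exact h2 (one_mem B)
    · rw [Finset.disjoint_left]
      intro x hx hx'
      simp only [mem_filter, mem_univ, true_and] at hx hx'
      exact hx'.2 hx.1
  have e4 : sm b' {g | g ∈ I' ∧ g ∉ B} =
      Nat.card A * sm (fun h => P.b (ρ h)) {h | h ∈ I ∧ h ∉ J} := by
    rw [xcc_sm b' (fun g => g ∈ I' ∧ g ∉ B), xcc_sm (fun h => P.b (ρ h)) (fun h => h ∈ I ∧ h ∉ J)]
    have hmaps : ∀ g : PW p H Ω, g ∈ I' → g ∉ B → g.right ∈ I ∧ g.right ∉ J := by
      intro g hg hgB
      have h1 : g.right ∈ ram P ρ 0 := (hr0' g.right).2 ⟨g, xcc_ram0.2 hg, rfl⟩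
      refine ⟨?_, ?_⟩
      · show _ ∈ (I : Set H)
        rw [hI]
        exact h1
      · intro h2
        exact hgB ⟨hg, ((hJ _).1 h2).2⟩
    rw [← Finset.sum_fiberwise_of_maps_to (s := univ.filter (fun g : PW p H Ω => g ∈ I' ∧ g ∉ B))
      (t := univ.filter (fun h : H => h ∈ I ∧ h ∉ J)) (g := fun g => g.right)
      (by
        intro g hg
        simp only [mem_filter, mem_univ, true_and] at hg ⊢
        exact hmaps g hg.1 hg.2), Finset.mul_sum]
    apply sum_congr rfl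
    intro h hh
    simp only [mem_filter, mem_univ, true_and] at hh
    have hhram : h ∈ ram P ρ 0 := by
      rw [← hI]
      exact hh.1
    have hhω : h • ω₀ ≠ ω₀ := fun h1 => hh.2 ((hJ h).2 ⟨hhram, h1⟩)
    obtain ⟨g, hg, hgh⟩ := (hr0' h).1 hhram
    have hgI : g ∈ I' := xcc_ram0.1 hg
    have hgr : g.right = h := hgh
    have hg1 : SemidirectProduct.rightHom g ≠ 1 := by
      intro h1
      apply hhω
      rw [← hgr]
      have h2 : g.right = 1 := h1
      rw [h2, one_smul]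
    have h2 := (hWP2 k L L' (PW p H Ω) H ρ ρ' j SemidirectProduct.rightHom P P' e' A g hwx
      hA hgI hg1).2
    rw [hgh] at h2
    rw [← h2, xcc_sm b' (fun x => g⁻¹ * x ∈ A)]
    apply sum_congr _ (fun _ _ => rfl)
    ext x
    simp only [mem_filter, mem_univ, true_and]
    constructor
    · rintro ⟨⟨hxI, hxB⟩, hxh⟩
      rw [hA]
      refine ⟨?_, mul_mem (inv_mem hgI) hxI⟩
      rw [map_mul, map_inv, hgh]
      have h3 : SemidirectProduct.rightHom x = h := hxh
      rw [h3, inv_mul_cancel]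
    · intro hx
      have hxI : x ∈ I' := by
        have := mul_mem hgI (hBI (hAB hx))
        rwa [mul_inv_cancel_left] at this
      have hxh : x.right = h := by
        have h3 := ((hA _).1 hx).1
        rw [map_mul, map_inv, hgh, inv_mul_eq_one] at h3
        exact h3.symm
      refine ⟨⟨hxI, ?_⟩, hxh⟩
      intro hxB
      apply hhω
      rw [← hxh]
      exact hxB.2
  -- the value
  have hWpos : (0 : ℚ) < Nat.card W' := by exact_mod_cast Nat.card_pos
  have hIpos : (0 : ℚ) < Nat.card I := by exact_mod_cast Nat.card_pos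
  have hAposQ : (0 : ℚ) < Nat.card A := by exact_mod_cast Nat.card_pos
  have e1 : (Nat.card W' : ℚ) * U (fun g => P'.b (ρ' g)) W' (b' z) =
      ((b' z + sm b' {g | g ∈ W' ∧ g ≠ 1} : ℤ) : ℚ) := by
    unfold U
    rw [mul_div_cancel₀ _ hWpos.ne']
    push_cast
    rfl
  have e5 : b' z + sm b' {g | g ∈ W' ∧ g ≠ 1} = Nat.card A *
      (((n * Nat.card J : ℕ) : ℤ) + sm (fun h => P.b (ρ h)) {h | h ∈ I ∧ h ∉ J}) := by
    have h1 : b' z + sm b' {g | g ∈ B ∧ g ≠ 1} = Nat.card B * (n : ℤ) := hX2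
    rw [e2, e3, e4, ← add_assoc, h1, hcB]
    push_cast
    ring
  rw [e1, e5, hcI]
  push_cast
  field_simp

end Pool.CND
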